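import Mathlib
import Pool.Agent.Helper829.AFDefs
import Pool.Agent.Helper829.ASDefs
import Pool.Agent.Helper829.ASi

set_option autoImplicit false

namespace Pool.Agent.Results.MP_9890f7_al.SimpleCase

open Pool.Agent.Helper829.AF

theorem result (n : ℕ) (M : Type) [AddCommGroup M] [Module ℂ M] [FiniteDimensional ℂ M]
    (B : Bimod (Matrix (Fin (n + 1)) (Fin (n + 1)) ℂ) M) :
    AntiFrobenius B.mul ↔
      Even (B.mult true true) ∧ Even (B.mult false false) ∧
        ((B.mult true false : ℤ) - B.mult false true) ∣ ((n + 1 : ℕ) : ℤ) :=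
  Pool.Agent.Helper829.AS.main B

end Pool.Agent.Results.MP_9890f7_al.SimpleCase
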